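import Mathlib

/-!
# The d-reflection functor preserves arbitrary products of T₀ spaces

For a topological space `X` the specialization order is `x ≤ y` iff `x ∈ closure {y}`.  A `d`-space
(monotone convergence space) is a `T₀` space in which every (nonempty) directed set `D` has a
supremum `s` such that every open neighbourhood of `s` meets `D`.  A `d`-reflection of `X` is a
continuous map `μ : X → Z` to a `d`-space which is universal for the continuous maps of `X` to
`d`-spaces.

Main steps.  A continuous map `μ : X → Z` to a `d`-space `Z` is a `d`-reflection if and only if the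
topology of `X` is induced by `μ` and every subset of `Z` which contains the image of `μ` and is
closed under directed suprema is all of `Z` (`isDReflection_iff`).  Both properties pass to arbitrary
products: a subset of the product which contains the image and is closed under directed suprema
contains first all points which differ from a point of the image in finitely many coordinates, and
then all points `z`, as the directed supremum of the points which agree with `z` in finitely many
coordinates and with a point of the image below `z` in all other coordinates.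
-/

namespace Pool.Agent.Results.MP_c8df5e_gt.ArbitraryProducts

open Set Topology

universe u v w

/-- The specialization order: `x ≤ y` iff `x` belongs to the closure of `{y}`. -/
def SpecLE {X : Type u} [TopologicalSpace X] (x y : X) : Prop := x ∈ closure ({y} : Set X)

/-- `D` is directed for the specialization order (and nonempty). -/
def Directed {X : Type u} [TopologicalSpace X] (D : Set X) : Prop :=
  D.Nonempty ∧ ∀ x ∈ D, ∀ y ∈ D, ∃ z ∈ D, SpecLE x z ∧ SpecLE y z

/-- `s` is a supremum of `D` for the specialization order. -/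
def IsSup {X : Type u} [TopologicalSpace X] (D : Set X) (s : X) : Prop :=
  (∀ x ∈ D, SpecLE x s) ∧ ∀ t, (∀ x ∈ D, SpecLE x t) → SpecLE s t

/-- `d`-spaces (monotone convergence spaces): `T₀` spaces in which every directed set `D` has a
supremum `s`, and every open set which contains `s` meets `D`. -/
def IsDSpace (X : Type u) [TopologicalSpace X] : Prop :=
  T0Space X ∧ ∀ D : Set X, Directed D →
    ∃ s, IsSup D s ∧ ∀ U : Set X, IsOpen U → s ∈ U → (D ∩ U).Nonempty

/-- The map `μ : X → Z` is a `d`-reflection of `X`: `Z` is a `d`-space, `μ` is continuous, and every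
continuous map of `X` to a `d`-space factors uniquely through `μ` with a continuous second factor. -/
def IsDReflection {X Z : Type u} [TopologicalSpace X] [TopologicalSpace Z] (μ : X → Z) : Prop :=
  IsDSpace Z ∧ Continuous μ ∧
    ∀ (Y : Type u) [TopologicalSpace Y], IsDSpace Y → ∀ f : X → Y, Continuous f →
      ∃! g : Z → Y, Continuous g ∧ g ∘ μ = f

/-! ### The specialization order -/

section Order

variable {X : Type u} [TopologicalSpace X] {Y : Type v} [TopologicalSpace Y]

theorem specLE_iff {x y : X} : SpecLE x y ↔ ∀ U : Set X, IsOpen U → x ∈ U → y ∈ U := by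
  unfold SpecLE
  rw [mem_closure_iff]
  constructor
  · intro h U hU hx
    obtain ⟨z, hz, hz'⟩ := h U hU hx
    rw [mem_singleton_iff] at hz'
    exact hz' ▸ hz
  · intro h U hU hx
    exact ⟨y, h U hU hx, rfl⟩

theorem specLE_refl (x : X) : SpecLE x x := specLE_iff.2 fun _ _ h => h

theorem SpecLE.trans {x y z : X} (h : SpecLE x y) (h' : SpecLE y z) : SpecLE x z :=
  specLE_iff.2 fun U hU hx => specLE_iff.1 h' U hU (specLE_iff.1 h U hU hx)

theorem SpecLE.antisymm [T0Space X] {x y : X} (h : SpecLE x y) (h' : SpecLE y x) : x = y := by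
  refine Inseparable.eq (inseparable_iff_forall_isOpen.2 fun U hU => ?_)
  exact ⟨fun hx => specLE_iff.1 h U hU hx, fun hy => specLE_iff.1 h' U hU hy⟩

theorem SpecLE.map {x y : X} (h : SpecLE x y) {f : X → Y} (hf : Continuous f) :
    SpecLE (f x) (f y) :=
  specLE_iff.2 fun U hU hx => specLE_iff.1 h (f ⁻¹' U) (hU.preimage hf) hx

/-- `s` is the limit of the directed set `D`: an upper bound each of whose neighbourhoods
meets `D`. -/
def IsLim (D : Set X) (s : X) : Prop :=
  (∀ x ∈ D, SpecLE x s) ∧ ∀ U : Set X, IsOpen U → s ∈ U → (D ∩ U).Nonempty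

theorem IsLim.isSup {D : Set X} {s : X} (h : IsLim D s) : IsSup D s := by
  refine ⟨h.1, fun t ht => specLE_iff.2 fun U hU hs => ?_⟩
  obtain ⟨x, hx, hxU⟩ := h.2 U hU hs
  exact specLE_iff.1 (ht x hx) U hU hxU

theorem IsDSpace.exists_isLim (hX : IsDSpace X) {D : Set X} (hD : Directed D) :
    ∃ s, IsLim D s := by
  obtain ⟨s, hs, hU⟩ := hX.2 D hD
  exact ⟨s, hs.1, hU⟩

theorem IsLim.unique [T0Space X] {D : Set X} {s t : X} (hs : IsLim D s) (ht : IsLim D t) :
    s = t :=
  (hs.isSup.2 t ht.1).antisymm (ht.isSup.2 s hs.1)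

/-- In a `d`-space the supremum of a directed set is its limit. -/
theorem IsDSpace.isLim_of_isSup (hX : IsDSpace X) {D : Set X} (hD : Directed D) {s : X}
    (hs : IsSup D s) : IsLim D s := by
  obtain ⟨t, ht⟩ := hX.exists_isLim hD
  have := hX.1
  have : s = t := (hs.2 t ht.1).antisymm (ht.isSup.2 s hs.1)
  exact this ▸ ht

theorem isDSpace_of_exists_isLim [T0Space X] (h : ∀ D : Set X, Directed D → ∃ s, IsLim D s) :
    IsDSpace X :=
  ⟨inferInstance, fun D hD => (h D hD).imp fun _ hs => ⟨hs.isSup, hs.2⟩⟩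

theorem Directed.image {D : Set X} (hD : Directed D) {f : X → Y} (hf : Continuous f) :
    Directed (f '' D) := by
  refine ⟨hD.1.image f, ?_⟩
  rintro _ ⟨x, hx, rfl⟩ _ ⟨y, hy, rfl⟩
  obtain ⟨z, hz, hxz, hyz⟩ := hD.2 x hx y hy
  exact ⟨f z, ⟨z, hz, rfl⟩, hxz.map hf, hyz.map hf⟩

theorem IsLim.image {D : Set X} {s : X} (h : IsLim D s) {f : X → Y} (hf : Continuous f) :
    IsLim (f '' D) (f s) := by
  refine ⟨?_, fun U hU hs => ?_⟩
  · rintro _ ⟨x, hx, rfl⟩
    exact (h.1 x hx).map hf
  · obtain ⟨x, hx, hxU⟩ := h.2 (f ⁻¹' U) (hU.preimage hf) hs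
    exact ⟨f x, ⟨x, hx, rfl⟩, hxU⟩

/-- A set is `d`-closed if it contains the limits of its directed subsets. -/
def DClosed (A : Set X) : Prop := ∀ D ⊆ A, Directed D → ∀ s, IsLim D s → s ∈ A

/-- A set is `d`-dense if it is contained in no proper `d`-closed subset. -/
def DDense (B : Set X) : Prop := ∀ A : Set X, B ⊆ A → DClosed A → ∀ x, x ∈ A

theorem DClosed.preimage {A : Set Y} (hA : DClosed A) {f : X → Y} (hf : Continuous f) :
    DClosed (f ⁻¹' A) := by
  intro D hD hdir s hs
  refine hA (f '' D) ?_ (hdir.image hf) _ (hs.image hf)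
  rintro _ ⟨x, hx, rfl⟩
  exact hD hx

/-- The points above a point of `B` form a `d`-closed set. -/
theorem dClosed_up (B : Set X) : DClosed {x : X | ∃ b ∈ B, SpecLE b x} := by
  rintro D hD ⟨⟨x, hx⟩, -⟩ s hs
  obtain ⟨b, hb, hbx⟩ := hD hx
  exact ⟨b, hb, hbx.trans (hs.1 x hx)⟩

/-- Two open sets which agree on a `d`-dense set are equal. -/
theorem DDense.open_ext {B : Set X} (hB : DDense B) {U V : Set X} (hU : IsOpen U)
    (hV : IsOpen V) (h : ∀ b ∈ B, b ∈ U → b ∈ V) : U ⊆ V := by
  intro x hx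
  have key : x ∈ {x : X | x ∈ U → x ∈ V} := by
    refine hB _ h ?_ x
    intro D hD _ s hs hsU
    obtain ⟨y, hy, hyU⟩ := hs.2 U hU hsU
    exact specLE_iff.1 (hs.1 y hy) V hV (hD hy hyU)
  exact key hx

end Order

/-! ### A characterization of `d`-reflections -/

section Char

variable {X Z : Type u} [TopologicalSpace X] [TopologicalSpace Z] {μ : X → Z}

theorem eqOn_of_dDense {Y : Type v} [TopologicalSpace Y] [T0Space Y] {B : Set Z} (hB : DDense B)
    {f g : Z → Y} (hf : Continuous f) (hg : Continuous g) (h : ∀ b ∈ B, f b = g b) : f = g := by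
  funext z
  refine hB {z | f z = g z} h ?_ z
  intro D hD _ s hs
  have h1 := hs.image hf
  have h2 := hs.image hg
  have h3 : f '' D = g '' D := image_congr fun x hx => hD hx
  rw [h3] at h1
  exact h1.unique h2

/-- A map which induces the topology and has `d`-dense image in a `d`-space is a `d`-reflection. -/
theorem isDReflection_of (hZ : IsDSpace Z) (hμ : IsInducing μ) (hd : DDense (range μ)) :
    IsDReflection μ := by
  refine ⟨hZ, hμ.continuous, ?_⟩
  intro Y _ hY f hf
  have := hY.1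
  have hex : ∀ V : Set Y, IsOpen V → ∃ W : Set Z, IsOpen W ∧ μ ⁻¹' W = f ⁻¹' V := fun V hV =>
    hμ.isOpen_iff.1 (hV.preimage hf)
  choose! W hWo hW using hex
  have hall : ∀ z : Z, ∃ y : Y, ∀ V : Set Y, IsOpen V → (y ∈ V ↔ z ∈ W V) := by
    refine hd {z : Z | ∃ y : Y, ∀ V : Set Y, IsOpen V → (y ∈ V ↔ z ∈ W V)} ?_ ?_
    · rintro _ ⟨x, rfl⟩
      refine ⟨f x, fun V hV => ?_⟩
      have := hW V hV
      exact ⟨fun h => (this ▸ h : x ∈ μ ⁻¹' W V), fun h => (this ▸ h : x ∈ f ⁻¹' V)⟩
    · intro D hD hdir s hs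
      have hne : Nonempty Y := by
        obtain ⟨z, hz⟩ := hdir.1
        obtain ⟨y, -⟩ := hD hz
        exact ⟨y⟩
      choose! y hy using (fun z (hz : z ∈ D) => hD hz)
      have hmono : ∀ z ∈ D, ∀ z' ∈ D, SpecLE z z' → SpecLE (y z) (y z') := by
        intro z hz z' hz' hzz'
        refine specLE_iff.2 fun V hV hyV => ?_
        rw [hy z' hz' V hV]
        exact specLE_iff.1 hzz' (W V) (hWo V hV) ((hy z hz V hV).1 hyV)
      have hdir' : Directed (y '' D) := by
        refine ⟨hdir.1.image y, ?_⟩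
        rintro _ ⟨a, ha, rfl⟩ _ ⟨b, hb, rfl⟩
        obtain ⟨c, hc, hac, hbc⟩ := hdir.2 a ha b hb
        exact ⟨y c, ⟨c, hc, rfl⟩, hmono a ha c hc hac, hmono b hb c hc hbc⟩
      obtain ⟨t, ht⟩ := hY.exists_isLim hdir'
      refine ⟨t, fun V hV => ⟨fun htV => ?_, fun hsV => ?_⟩⟩
      · obtain ⟨_, ⟨z, hz, rfl⟩, hzV⟩ := ht.2 V hV htV
        exact specLE_iff.1 (hs.1 z hz) (W V) (hWo V hV) ((hy z hz V hV).1 hzV)
      · obtain ⟨z, hz, hzW⟩ := hs.2 (W V) (hWo V hV) hsV
        exact specLE_iff.1 (ht.1 (y z) ⟨z, hz, rfl⟩) V hV ((hy z hz V hV).2 hzW)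
  choose g hg using hall
  have hgc : Continuous g := by
    refine continuous_def.2 fun V hV => ?_
    have : g ⁻¹' V = W V := by
      ext z
      exact hg z V hV
    rw [this]
    exact hWo V hV
  have hgμ : g ∘ μ = f := by
    funext x
    refine Inseparable.eq (inseparable_iff_forall_isOpen.2 fun V hV => ?_)
    have h1 := hg (μ x) V hV
    have h2 : x ∈ μ ⁻¹' W V ↔ x ∈ f ⁻¹' V := by rw [hW V hV]
    exact h1.trans h2
  refine ⟨g, ⟨hgc, hgμ⟩, ?_⟩
  rintro g' ⟨hg'c, hg'μ⟩
  refine eqOn_of_dDense hd hg'c hgc ?_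
  rintro _ ⟨x, rfl⟩
  exact congrFun (hg'μ.trans hgμ.symm) x

/-- The Sierpinski space is a `d`-space. -/
theorem isDSpace_sierpinski : IsDSpace (ULift.{u} Prop) := by
  classical
  have : T0Space (ULift.{u} Prop) := Topology.IsEmbedding.uliftDown.t0Space
  have huniv : ∀ (p : ULift.{u} Prop), ¬ p.down → ∀ U : Set (ULift.{u} Prop), IsOpen U → p ∈ U →
      ∀ q, q ∈ U := by
    intro p hp U hU hpU q
    obtain ⟨V, hV, rfl⟩ := isOpen_induced_iff.1 hU
    have hpF : p.down = False := by simpa using hp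
    have hF : V ∈ 𝓝 False := hV.mem_nhds (by rw [← hpF]; exact hpU)
    rw [nhds_false, Filter.mem_top] at hF
    rw [hF]
    trivial
  refine isDSpace_of_exists_isLim fun D hD => ⟨ULift.up (∃ d ∈ D, d.down), ?_, ?_⟩
  · intro d hd
    refine specLE_iff.2 fun U hU hdU => ?_
    by_cases hdt : d.down
    · have : d = ULift.up (∃ d ∈ D, d.down) := by
        apply ULift.ext
        exact propext ⟨fun _ => ⟨d, hd, hdt⟩, fun _ => hdt⟩
      exact this ▸ hdU
    · exact huniv d hdt U hU hdU _
  · intro U hU hs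
    by_cases h : ∃ d ∈ D, d.down
    · obtain ⟨d, hd, hdt⟩ := h
      have : ULift.up (∃ d ∈ D, d.down) = d := by
        apply ULift.ext
        exact propext ⟨fun _ => hdt, fun _ => ⟨d, hd, hdt⟩⟩
      exact ⟨d, hd, this ▸ hs⟩
    · obtain ⟨d, hd⟩ := hD.1
      exact ⟨d, hd, huniv _ h U hU hs d⟩

/-- The subspace of a `d`-space given by a `d`-closed set is a `d`-space. -/
theorem IsDSpace.subtype {Z : Type u} [TopologicalSpace Z] (hZ : IsDSpace Z) {A : Set Z}
    (hA : DClosed A) : IsDSpace A ∧ ∀ (D : Set A) (s : A),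
      IsLim ((fun a : A => (a : Z)) '' D) (s : Z) → IsLim D s := by
  have := hZ.1
  have hlim : ∀ (D : Set A) (s : A), IsLim ((fun a : A => (a : Z)) '' D) (s : Z) → IsLim D s := by
    intro D s hs
    refine ⟨fun d hd => specLE_iff.2 fun U hU hdU => ?_, fun U hU hsU => ?_⟩
    · obtain ⟨V, hV, rfl⟩ := isOpen_induced_iff.1 hU
      exact specLE_iff.1 (hs.1 d ⟨d, hd, rfl⟩) V hV hdU
    · obtain ⟨V, hV, rfl⟩ := isOpen_induced_iff.1 hU
      obtain ⟨_, ⟨d, hd, rfl⟩, hdV⟩ := hs.2 V hV hsU
      exact ⟨d, hd, hdV⟩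
  refine ⟨isDSpace_of_exists_isLim fun D hD => ?_, hlim⟩
  have hdir : Directed ((fun a : A => (a : Z)) '' D) := hD.image continuous_subtype_val
  obtain ⟨s, hs⟩ := hZ.exists_isLim hdir
  have hsA : s ∈ A := by
    refine hA _ ?_ hdir s hs
    rintro _ ⟨a, -, rfl⟩
    exact a.2
  exact ⟨⟨s, hsA⟩, hlim D ⟨s, hsA⟩ hs⟩

/-- The smallest `d`-closed set which contains `B`. -/
def dHull {Z : Type u} [TopologicalSpace Z] (B : Set Z) : Set Z :=
  {z | ∀ A : Set Z, B ⊆ A → DClosed A → z ∈ A}

theorem subset_dHull {Z : Type u} [TopologicalSpace Z] (B : Set Z) : B ⊆ dHull B :=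
  fun _ hb _ hA _ => hA hb

theorem dClosed_dHull {Z : Type u} [TopologicalSpace Z] (B : Set Z) : DClosed (dHull B) :=
  fun _ hD hdir s hs A hBA hA => hA _ (fun _ hz => hD hz A hBA hA) hdir s hs

/-- The image of a `d`-reflection is `d`-dense. -/
theorem IsDReflection.dDense (h : IsDReflection μ) : DDense (range μ) := by
  have hsub := (h.1.subtype (dClosed_dHull (range μ)))
  let ν : X → dHull (range μ) := fun x => ⟨μ x, subset_dHull _ ⟨x, rfl⟩⟩
  have hν : Continuous ν := h.2.1.subtype_mk _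
  obtain ⟨r, ⟨hr, hrν⟩, -⟩ := h.2.2 _ hsub.1 ν hν
  have hid : (fun z => ((r z : dHull (range μ)) : Z)) = id := by
    obtain ⟨g, -, hg⟩ := h.2.2 Z h.1 μ h.2.1
    have h1 : (fun z => ((r z : dHull (range μ)) : Z)) = g := by
      refine hg _ ⟨continuous_subtype_val.comp hr, ?_⟩
      funext x
      exact congrArg Subtype.val (congrFun hrν x)
    exact h1.trans (hg id ⟨continuous_id, rfl⟩).symm
  intro A hBA hA z
  have : (r z : Z) = z := congrFun hid z
  rw [← this]
  exact (r z).2 A hBA hA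

/-- A `d`-reflection induces the topology. -/
theorem IsDReflection.isInducing (h : IsDReflection μ) : IsInducing μ := by
  refine ⟨le_antisymm h.2.1.le_induced ?_⟩
  intro U hU
  have hc : Continuous (fun x => ULift.up.{u} (x ∈ U)) :=
    continuous_uliftUp.comp (isOpen_iff_continuous_mem.1 hU)
  obtain ⟨g, ⟨hg, hgμ⟩, -⟩ := h.2.2 _ isDSpace_sierpinski _ hc
  refine isOpen_induced_iff.2 ⟨{z | (g z).down}, ?_, ?_⟩
  · exact continuous_Prop.1 (continuous_uliftDown.comp hg)
  · ext x
    have := congrFun hgμ x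
    simp only [Function.comp] at this
    simp only [mem_preimage, mem_ofPred_eq, this]

/-- Characterization of the `d`-reflections. -/
theorem isDReflection_iff : IsDReflection μ ↔ IsDSpace Z ∧ IsInducing μ ∧ DDense (range μ) :=
  ⟨fun h => ⟨h.1, h.isInducing, h.dDense⟩, fun h => isDReflection_of h.1 h.2.1 h.2.2⟩

/-- Two `d`-reflections of a space are homeomorphic, compatibly with the maps. -/
theorem IsDReflection.exists_homeomorph {W : Type u} [TopologicalSpace W] {ν : X → W}
    (h : IsDReflection μ) (h' : IsDReflection ν) : ∃ e : W ≃ₜ Z, ⇑e ∘ ν = μ := by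
  obtain ⟨f, ⟨hf, hfμ⟩, -⟩ := h.2.2 W h'.1 ν h'.2.1
  obtain ⟨g, ⟨hg, hgν⟩, -⟩ := h'.2.2 Z h.1 μ h.2.1
  obtain ⟨a, -, ha⟩ := h.2.2 Z h.1 μ h.2.1
  obtain ⟨b, -, hb⟩ := h'.2.2 W h'.1 ν h'.2.1
  have h1 : g ∘ f = id := by
    rw [ha (g ∘ f) ⟨hg.comp hf, by rw [Function.comp_assoc, hfμ, hgν]⟩, ha id ⟨continuous_id, rfl⟩]
  have h2 : f ∘ g = id := by
    rw [hb (f ∘ g) ⟨hf.comp hg, by rw [Function.comp_assoc, hgν, hfμ]⟩, hb id ⟨continuous_id, rfl⟩]
  exact ⟨⟨⟨g, f, fun w => congrFun h2 w, fun z => congrFun h1 z⟩, hg, hf⟩, hgν⟩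

end Char

/-! ### Existence of the `d`-reflection -/

section Existence

variable (X : Type u) [TopologicalSpace X]

/-- The set of the closed irreducible sets of `X` (the sobrification). -/
def Sob : Type u := {C : Set X // IsClosed C ∧ IsIrreducible C}

variable {X}

/-- The basic open sets of the sobrification. -/
def Sob.hit (U : Set X) : Set (Sob X) := {C | (C.1 ∩ U).Nonempty}

instance : TopologicalSpace (Sob X) where
  IsOpen S := ∃ U : Set X, IsOpen U ∧ S = Sob.hit U
  isOpen_univ := ⟨univ, isOpen_univ, by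
    ext C
    simpa [Sob.hit] using C.2.2.1⟩
  isOpen_inter := by
    rintro _ _ ⟨U, hU, rfl⟩ ⟨V, hV, rfl⟩
    refine ⟨U ∩ V, hU.inter hV, ?_⟩
    ext C
    constructor
    · rintro ⟨h1, h2⟩
      exact C.2.2.2 U V hU hV h1 h2
    · rintro ⟨x, hx, hxU, hxV⟩
      exact ⟨⟨x, hx, hxU⟩, ⟨x, hx, hxV⟩⟩
  isOpen_sUnion := by
    intro 𝒮 h𝒮
    choose! U hU hS using h𝒮
    refine ⟨⋃ S ∈ 𝒮, U S, isOpen_biUnion hU, ?_⟩
    ext C
    constructor
    · rintro ⟨S, hS𝒮, hC⟩
      rw [hS S hS𝒮] at hC
      obtain ⟨x, hx, hxU⟩ := hC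
      exact ⟨x, hx, mem_biUnion hS𝒮 hxU⟩
    · rintro ⟨x, hx, hxU⟩
      obtain ⟨S, hS𝒮, hxS⟩ := mem_iUnion₂.1 hxU
      refine ⟨S, hS𝒮, ?_⟩
      rw [hS S hS𝒮]
      exact ⟨x, hx, hxS⟩

theorem Sob.isOpen_iff {S : Set (Sob X)} : IsOpen S ↔ ∃ U : Set X, IsOpen U ∧ S = Sob.hit U :=
  Iff.rfl

theorem Sob.specLE_iff_subset {C C' : Sob X} : SpecLE C C' ↔ C.1 ⊆ C'.1 := by
  rw [specLE_iff]
  constructor
  · intro h x hx
    by_contra hx'
    have : C' ∈ Sob.hit (C'.1ᶜ) :=
      h _ (Sob.isOpen_iff.2 ⟨_, C'.2.1.isOpen_compl, rfl⟩) ⟨x, hx, hx'⟩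
    obtain ⟨y, hy, hy'⟩ := this
    exact hy' hy
  · rintro h _ ⟨U, hU, rfl⟩ ⟨x, hx, hxU⟩
    exact ⟨x, h hx, hxU⟩

instance : T0Space (Sob X) := by
  refine ⟨fun C C' h => ?_⟩
  have h' := inseparable_iff_forall_isOpen.1 h
  have h1 : SpecLE C C' := specLE_iff.2 fun U hU hC => (h' U hU).1 hC
  have h2 : SpecLE C' C := specLE_iff.2 fun U hU hC => (h' U hU).2 hC
  exact Subtype.ext (Subset.antisymm (Sob.specLE_iff_subset.1 h1) (Sob.specLE_iff_subset.1 h2))

theorem Sob.isDSpace : IsDSpace (Sob X) := by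
  refine isDSpace_of_exists_isLim fun D hD => ?_
  have hirr : IsIrreducible (⋃ C ∈ D, C.1 : Set X) := by
    constructor
    · obtain ⟨C, hC⟩ := hD.1
      obtain ⟨x, hx⟩ := C.2.2.1
      exact ⟨x, mem_biUnion hC hx⟩
    · rintro U V hU hV ⟨x, hx, hxU⟩ ⟨y, hy, hyV⟩
      obtain ⟨C, hC, hxC⟩ := mem_iUnion₂.1 hx
      obtain ⟨C', hC', hyC'⟩ := mem_iUnion₂.1 hy
      obtain ⟨E, hE, h1, h2⟩ := hD.2 C hC C' hC'
      obtain ⟨z, hz, hzUV⟩ := E.2.2.2 U V hU hV ⟨x, Sob.specLE_iff_subset.1 h1 hxC, hxU⟩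
        ⟨y, Sob.specLE_iff_subset.1 h2 hyC', hyV⟩
      exact ⟨z, mem_biUnion hE hz, hzUV⟩
  refine ⟨⟨closure (⋃ C ∈ D, C.1), isClosed_closure, hirr.closure⟩, ?_, ?_⟩
  · intro C hC
    exact Sob.specLE_iff_subset.2 ((subset_biUnion_of_mem hC).trans subset_closure)
  · rintro _ ⟨U, hU, rfl⟩ ⟨x, hx, hxU⟩
    obtain ⟨y, hyU, hy⟩ := mem_closure_iff.1 hx U hU hxU
    obtain ⟨C, hC, hyC⟩ := mem_iUnion₂.1 hy
    exact ⟨C, hC, y, hyC, hyU⟩

/-- The canonical map of a space to its sobrification. -/
def Sob.unit (x : X) : Sob X := ⟨closure {x}, isClosed_closure, isIrreducible_singleton.closure⟩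

theorem Sob.unit_mem_hit {x : X} {U : Set X} (hU : IsOpen U) : Sob.unit x ∈ Sob.hit U ↔ x ∈ U := by
  constructor
  · rintro ⟨y, hy, hyU⟩
    exact specLE_iff.1 hy U hU hyU
  · intro hx
    exact ⟨x, subset_closure rfl, hx⟩

theorem Sob.isInducing_unit : IsInducing (Sob.unit : X → Sob X) := by
  refine ⟨TopologicalSpace.ext_iff.2 fun U => ?_⟩
  rw [isOpen_induced_iff]
  constructor
  · intro hU
    refine ⟨Sob.hit U, Sob.isOpen_iff.2 ⟨U, hU, rfl⟩, ?_⟩
    ext x
    exact Sob.unit_mem_hit hU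
  · rintro ⟨_, ⟨V, hV, rfl⟩, rfl⟩
    have : Sob.unit ⁻¹' Sob.hit V = V := by
      ext x
      exact Sob.unit_mem_hit hV
    rw [this]
    exact hV

/-- Every topological space has a `d`-reflection. -/
theorem exists_isDReflection (X : Type u) [TopologicalSpace X] :
    ∃ (Z : Type u) (_ : TopologicalSpace Z) (μ : X → Z), IsDReflection μ := by
  let B : Set (Sob X) := range Sob.unit
  obtain ⟨hds, hlim⟩ := (Sob.isDSpace (X := X)).subtype (dClosed_dHull B)
  refine ⟨dHull B, inferInstance, fun x => ⟨Sob.unit x, subset_dHull _ ⟨x, rfl⟩⟩, ?_⟩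
  refine isDReflection_of hds ?_ ?_
  · have h1 : IsInducing (fun a : dHull B => (a : Sob X)) := IsInducing.subtypeVal
    exact h1.of_comp_iff.1 Sob.isInducing_unit
  · intro A hBA hA z
    have hmem : (z : Sob X) ∈ (fun a : dHull B => (a : Sob X)) '' A := by
      refine z.2 _ ?_ ?_
      · rintro _ ⟨x, rfl⟩
        exact ⟨_, hBA ⟨x, rfl⟩, rfl⟩
      · intro D hD hdir s hs
        have hDA : (fun a : dHull B => (a : Sob X)) '' {a : dHull B | (a : Sob X) ∈ D} = D := by
          ext C
          constructor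
          · rintro ⟨a, ha, rfl⟩
            exact ha
          · intro hC
            obtain ⟨a, -, rfl⟩ := hD hC
            exact ⟨a, hC, rfl⟩
        have hsB : s ∈ dHull B := by
          refine dClosed_dHull B D ?_ hdir s hs
          intro C hC
          obtain ⟨a, -, rfl⟩ := hD hC
          exact a.2
        refine ⟨⟨s, hsB⟩, hA {a : dHull B | (a : Sob X) ∈ D} ?_ ?_ _ (hlim _ ⟨s, hsB⟩ ?_), rfl⟩
        · intro a ha
          obtain ⟨a', ha', h⟩ := hD ha
          have : a' = a := Subtype.ext h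
          exact this ▸ ha'
        · constructor
          · obtain ⟨C, hC⟩ := hdir.1
            obtain ⟨a, -, rfl⟩ := hD hC
            exact ⟨a, hC⟩
          · intro a ha b hb
            obtain ⟨c, hc, hac, hbc⟩ := hdir.2 _ ha _ hb
            obtain ⟨c', -, rfl⟩ := hD hc
            have key : ∀ a : dHull B, SpecLE (a : Sob X) (c' : Sob X) → SpecLE a c' := by
              intro a hac
              refine specLE_iff.2 fun U hU haU => ?_
              obtain ⟨V, hV, rfl⟩ := isOpen_induced_iff.1 hU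
              exact specLE_iff.1 hac V hV haU
            exact ⟨c', hc, key a hac, key b hbc⟩
        · rw [hDA]
          exact hs
    obtain ⟨a, ha, h⟩ := hmem
    have : a = z := Subtype.ext h
    exact this ▸ ha

end Existence

/-! ### Products -/

section Products

variable {I : Type v} {Z : I → Type w} [∀ i, TopologicalSpace (Z i)]

theorem specLE_pi {z z' : ∀ i, Z i} : SpecLE z z' ↔ ∀ i, SpecLE (z i) (z' i) := by
  constructor
  · intro h i
    exact h.map (continuous_apply i)
  · intro h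
    unfold SpecLE
    have : closure ({z'} : Set (∀ i, Z i)) = pi univ fun i => closure {z' i} := by
      rw [← closure_pi_set, univ_pi_singleton]
    rw [this]
    exact fun i _ => h i

/-- A product of `d`-spaces is a `d`-space. -/
theorem isDSpace_pi (h : ∀ i, IsDSpace (Z i)) : IsDSpace (∀ i, Z i) := by
  have := fun i => (h i).1
  refine isDSpace_of_exists_isLim fun D hD => ?_
  have hex : ∀ i, ∃ s, IsLim ((fun z : ∀ i, Z i => z i) '' D) s := fun i =>
    (h i).exists_isLim (hD.image (continuous_apply i))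
  choose s hs using hex
  refine ⟨s, fun z hz => specLE_pi.2 fun i => (hs i).1 _ ⟨z, hz, rfl⟩, fun U hU hsU => ?_⟩
  obtain ⟨F, V, hV, hVU⟩ := isOpen_pi_iff.1 hU s hsU
  -- choose a member of `D` which is good for all coordinates in `F`
  have key : ∀ G : Finset I, G ⊆ F → ∃ z ∈ D, ∀ i ∈ G, z i ∈ V i := by
    classical
    intro G
    induction G using Finset.induction_on with
    | empty =>
      intro _
      obtain ⟨z, hz⟩ := hD.1
      exact ⟨z, hz, fun i hi => absurd hi (Finset.notMem_empty i)⟩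
    | insert j G _ ih =>
      intro hG
      obtain ⟨z, hz, hzV⟩ := ih ((Finset.subset_insert j G).trans hG)
      have hj := hV j (hG (Finset.mem_insert_self j G))
      obtain ⟨_, ⟨z', hz', rfl⟩, hz'V⟩ := (hs j).2 (V j) hj.1 hj.2
      obtain ⟨y, hy, h1, h2⟩ := hD.2 z hz z' hz'
      refine ⟨y, hy, fun i hi => ?_⟩
      rcases Finset.mem_insert.1 hi with rfl | hi'
      · exact specLE_iff.1 (specLE_pi.1 h2 i) _ hj.1 hz'V
      · exact specLE_iff.1 (specLE_pi.1 h1 i) _ (hV i (hG hi)).1 (hzV i hi')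
  obtain ⟨z, hz, hzV⟩ := key F subset_rfl
  exact ⟨z, hz, hVU fun i hi => hzV i hi⟩

/-- A product of `d`-dense sets, given as ranges, is `d`-dense. -/
theorem dDense_pi {X : I → Type w} (μ : ∀ i, X i → Z i) (hd : ∀ i, DDense (range (μ i))) :
    DDense (range fun (x : ∀ i, X i) (i : I) => μ i (x i)) := by
  classical
  intro A hBA hA
  -- points which differ from a point of the image in finitely many coordinates
  have step : ∀ (F : Finset I) (x : ∀ i, X i) (z : ∀ i, Z i), (∀ i, i ∉ F → z i = μ i (x i)) →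
      z ∈ A := by
    intro F
    induction F using Finset.induction_on with
    | empty =>
      intro x z hz
      have : z = fun i => μ i (x i) := funext fun i => hz i (Finset.notMem_empty i)
      rw [this]
      exact hBA ⟨x, rfl⟩
    | insert j F _ ih =>
      intro x z hz
      have hmem : z j ∈ {t : Z j | Function.update z j t ∈ A} := by
        refine hd j _ ?_ ?_ (z j)
        · rintro _ ⟨a, rfl⟩
          refine ih (Function.update x j a) _ fun i hi => ?_
          by_cases hij : i = j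
          · subst hij
            simp
          · rw [Function.update_of_ne hij, Function.update_of_ne hij]
            exact hz i (by simp [hij, hi])
        · have hc : Continuous (fun t : Z j => Function.update z j t) :=
            continuous_const.update j continuous_id
          exact hA.preimage hc
      simpa using hmem
  intro z
  -- a point of the image below `z`
  have hex : ∀ i, ∃ x : X i, SpecLE (μ i x) (z i) := by
    intro i
    have := hd i {t | ∃ b ∈ range (μ i), SpecLE b t} (fun b hb => ⟨b, hb, specLE_refl b⟩)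
      (dClosed_up _) (z i)
    obtain ⟨_, ⟨x, rfl⟩, hx⟩ := this
    exact ⟨x, hx⟩
  choose x hx using hex
  let p : Finset I → ∀ i, Z i := fun F i => if i ∈ F then z i else μ i (x i)
  have hpz : ∀ F, SpecLE (p F) z := by
    intro F
    refine specLE_pi.2 fun i => ?_
    by_cases hi : i ∈ F
    · simpa [p, hi] using specLE_refl (z i)
    · simpa [p, hi] using hx i
  have hmono : ∀ F G : Finset I, F ⊆ G → SpecLE (p F) (p G) := by
    intro F G hFG
    refine specLE_pi.2 fun i => ?_
    by_cases hi : i ∈ F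
    · have hi' : i ∈ G := hFG hi
      simpa [p, hi, hi'] using specLE_refl (z i)
    · by_cases hi' : i ∈ G
      · simpa [p, hi, hi'] using hx i
      · simpa [p, hi, hi'] using specLE_refl (μ i (x i))
  refine hA (range p) ?_ ⟨⟨p ∅, ∅, rfl⟩, ?_⟩ z ⟨?_, ?_⟩
  · rintro _ ⟨F, rfl⟩
    refine step F x _ fun i hi => ?_
    simp [p, hi]
  · rintro _ ⟨F, rfl⟩ _ ⟨G, rfl⟩
    exact ⟨p (F ∪ G), ⟨F ∪ G, rfl⟩, hmono _ _ Finset.subset_union_left,
      hmono _ _ Finset.subset_union_right⟩
  · rintro _ ⟨F, rfl⟩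
    exact hpz F
  · intro U hU hzU
    obtain ⟨F, V, hV, hVU⟩ := isOpen_pi_iff.1 hU z hzU
    refine ⟨p F, ⟨F, rfl⟩, hVU fun i hi => ?_⟩
    have hi' : i ∈ F := hi
    simpa [p, hi'] using (hV i hi').2

/-- A product of inducing maps is inducing. -/
theorem isInducing_pi {X : I → Type w} [∀ i, TopologicalSpace (X i)] {μ : ∀ i, X i → Z i}
    (h : ∀ i, IsInducing (μ i)) : IsInducing fun (x : ∀ i, X i) (i : I) => μ i (x i) :=
  IsInducing.piMap h

end Products

/-- **The `d`-reflection functor preserves arbitrary products of `T₀` spaces.**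
(1) Every `T₀` space has a `d`-reflection, and it is unique up to a homeomorphism compatible with
the maps.
(2) For every family of `T₀` spaces `X i` (`i` in an arbitrary index set) and all `d`-reflections
`μ i : X i → Z i`, the product map `∏ X i → ∏ Z i` is a `d`-reflection of the product `∏ X i`.
(3) Hence for every `d`-reflection `ν : ∏ X i → W` of the product there is a homeomorphism of `W` to
`∏ Z i` whose composition with `ν` is the product map. -/
theorem result :
    (∀ (X : Type u) [TopologicalSpace X] [T0Space X],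
      (∃ (Z : Type u) (_ : TopologicalSpace Z) (μ : X → Z), IsDReflection μ) ∧
      ∀ (Z W : Type u) [TopologicalSpace Z] [TopologicalSpace W] (μ : X → Z) (ν : X → W),
        IsDReflection μ → IsDReflection ν → ∃ e : W ≃ₜ Z, ⇑e ∘ ν = μ) ∧
    (∀ (I : Type u) (X Z : I → Type u) [∀ i, TopologicalSpace (X i)] [∀ i, T0Space (X i)]
      [∀ i, TopologicalSpace (Z i)] (μ : ∀ i, X i → Z i), (∀ i, IsDReflection (μ i)) →
      IsDReflection (fun (x : ∀ i, X i) (i : I) => μ i (x i)) ∧
      ∀ (W : Type u) [TopologicalSpace W] (ν : (∀ i, X i) → W), IsDReflection ν →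
        ∃ e : W ≃ₜ (∀ i, Z i), ⇑e ∘ ν = fun x i => μ i (x i)) := by
  refine ⟨fun X _ _ => ⟨exists_isDReflection X, fun Z W _ _ μ ν h h' => h.exists_homeomorph h'⟩,
    ?_⟩
  intro I X Z _ _ _ μ h
  have key : IsDReflection (fun (x : ∀ i, X i) (i : I) => μ i (x i)) :=
    isDReflection_of (isDSpace_pi fun i => (h i).1) (isInducing_pi fun i => (h i).isInducing)
      (dDense_pi μ fun i => (h i).dDense)
  exact ⟨key, fun W _ ν hν => key.exists_homeomorph hν⟩

end Pool.Agent.Results.MP_c8df5e_gt.ArbitraryProducts
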